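import Pool.Agent.R999.Brg

/-!
# The Thomas-Fermi interaction of neutral molecules of fixed shape is exactly of order `l⁻⁷`
-/

set_option autoImplicit false

open MeasureTheory Set Filter Topology Metric
open scoped ENNReal

namespace Pool.Agent.Results.MP_88afc7_mp.SeventhPower

/-- Three dimensional Euclidean space. -/
abbrev R3 := EuclideanSpace ℝ (Fin 3)

/-- `ρ ≥ 0` and `ρ ∈ L¹ ∩ L^{5/3}`. -/
structure Density (ρ : R3 → ℝ) : Prop where
  nonneg : ∀ x, 0 ≤ ρ x
  integrable : Integrable ρ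
  integrable_rpow : Integrable (fun x => ρ x ^ (5/3 : ℝ))

/-- The Thomas-Fermi functional of the configuration with nuclear charges `z` and nuclear
positions `R` (the nuclei are indexed by a finite type); the last term is the nuclear repulsion
`U`, written as one half of the sum over the ordered pairs of different nuclei. -/
noncomputable def tf {ι : Type} [Fintype ι] [DecidableEq ι] (γ : ℝ) (z : ι → ℝ) (R : ι → R3)
    (ρ : R3 → ℝ) : ℝ :=
  3/5 * γ * (∫ x, ρ x ^ (5/3 : ℝ)) - (∫ x, (∑ j, z j / ‖x - R j‖) * ρ x) +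
    1/2 * (∫ x, ∫ y, ρ x * ρ y / ‖x - y‖) +
    1/2 * ∑ i, ∑ j ∈ Finset.univ.erase i, z i * z j / ‖R i - R j‖

/-- The energies of the densities of total charge `∑ z` (neutral case). -/
def energies {ι : Type} [Fintype ι] [DecidableEq ι] (γ : ℝ) (z : ι → ℝ) (R : ι → R3) : Set ℝ :=
  {e | ∃ ρ : R3 → ℝ, Density ρ ∧ ∫ x, ρ x = ∑ j, z j ∧ tf γ z R ρ = e}

/-- The neutral Thomas-Fermi energy of a configuration. -/
noncomputable def E {ι : Type} [Fintype ι] [DecidableEq ι] (γ : ℝ) (z : ι → ℝ) (R : ι → R3) : ℝ :=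
  sInf (energies γ z R)

/-- A molecule: `k ≥ 1` nuclei with positive charges at different positions. -/
structure Molecule where
  k : ℕ
  k_pos : 0 < k
  z : Fin k → ℝ
  z_pos : ∀ i, 0 < z i
  R : Fin k → R3
  R_inj : Function.Injective R

variable {n : ℕ}

/-- The nuclear charges of the combined configuration. -/
def combZ (M : Fin n → Molecule) (p : Σ m : Fin n, Fin (M m).k) : ℝ := (M p.1).z p.2

/-- The nuclear positions of the combined configuration `M(l)`. -/
noncomputable def combR (M : Fin n → Molecule) (Y : Fin n → R3) (l : ℝ)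
    (p : Σ m : Fin n, Fin (M m).k) : R3 := (M p.1).R p.2 + l • Y p.1

/-- The interaction energy. -/
noncomputable def deltaE (γ : ℝ) (M : Fin n → Molecule) (Y : Fin n → R3) (l : ℝ) : ℝ :=
  E γ (combZ M) (combR M Y l) - ∑ m, E γ (M m).z (M m).R

open Pool.Agent.TH791.Cl Pool.Agent.R999.MinP Pool.Agent.R999.Ex

lemma energies_eq {ι : Type} [Fintype ι] [DecidableEq ι] (γ : ℝ) (z : ι → ℝ) (R : ι → R3) :
    energies γ z R = {e : ℝ | ∃ σ, Pool.Agent.R999.TFMin.Dens σ ∧ ∫ x, σ x = ∑ j, z j ∧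
      Pool.Agent.R999.TFMin.energy γ (Vn z R) σ + UU z R = e} := by
  have h1 : ∀ ρ, tf γ z R ρ = Pool.Agent.R999.TFMin.energy γ (Vn z R) ρ + UU z R := by
    intro ρ
    rw [UU_eq]; rfl
  ext e
  constructor
  · rintro ⟨ρ, ⟨a, b, c⟩, d, rfl⟩
    exact ⟨ρ, ⟨a, b, c⟩, d, (h1 ρ).symm⟩
  · rintro ⟨ρ, ⟨a, b, c⟩, d, rfl⟩
    exact ⟨ρ, ⟨a, b, c⟩, d, h1 ρ⟩

lemma least_FE {ι : Type} [Fintype ι] [DecidableEq ι] {γ : ℝ} (hγ : 0 < γ) {z : ι → ℝ}
    {R : ι → R3} {ρ : R3 → ℝ} (h : TFs γ z R ρ) : IsLeast (energies γ z R) (FE γ z R ρ) := by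
  rw [energies_eq]; exact least hγ h

lemma E_eq {ι : Type} [Fintype ι] [DecidableEq ι] {γ : ℝ} (hγ : 0 < γ) {z : ι → ℝ}
    {R : ι → R3} {ρ : R3 → ℝ} (h : TFs γ z R ρ) : E γ z R = FE γ z R ρ :=
  (least_FE hγ h).csInf_eq

/-- sums over one molecule -/
lemma sum_single (M : Fin n → Molecule) (m : Fin n) (F : (Σ m : Fin n, Fin (M m).k) → ℝ) :
    ∑ p, zS Sigma.fst (combZ M) {m} p * F p = ∑ i, (M m).z i * F ⟨m, i⟩ := by
  rw [Fintype.sum_sigma, Finset.sum_eq_single m]
  · refine Finset.sum_congr rfl fun i _ => ?_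
    unfold zS combZ
    simp
  · intro b _ hb
    refine Finset.sum_eq_zero fun i _ => ?_
    unfold zS
    rw [if_neg (by simpa using hb)]
    ring
  · intro h; exact absurd (Finset.mem_univ m) h

lemma Vn_single (M : Fin n → Molecule) (Y : Fin n → R3) (l : ℝ) (m : Fin n) (x : R3) :
    Vn (zS Sigma.fst (combZ M) {m}) (combR M Y l) x = Vn (M m).z (M m).R (x - l • Y m) := by
  have h := sum_single M m (fun p => 1 / ‖x - combR M Y l p‖)
  unfold Vn
  simp only [mul_one_div] at h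
  rw [h]
  refine Finset.sum_congr rfl fun i _ => ?_
  unfold combR
  have : x - ((M m).R i + l • Y m) = x - l • Y m - (M m).R i := by abel
  rw [this]

lemma mass_single (M : Fin n → Molecule) (m : Fin n) :
    ∑ p, zS Sigma.fst (combZ M) {m} p = ∑ i, (M m).z i := by
  have h := sum_single M m (fun _ => 1)
  simpa using h

lemma UU_single (M : Fin n → Molecule) (Y : Fin n → R3) (l : ℝ) (m : Fin n) :
    UU (zS Sigma.fst (combZ M) {m}) (combR M Y l) = UU (M m).z (M m).R := by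
  unfold UU
  congr 1
  have h1 : ∀ p : (Σ m : Fin n, Fin (M m).k), ∑ q, zS Sigma.fst (combZ M) {m} p *
      zS Sigma.fst (combZ M) {m} q / ‖combR M Y l p - combR M Y l q‖ =
      zS Sigma.fst (combZ M) {m} p *
        ∑ j, (M m).z j * (1 / ‖combR M Y l p - combR M Y l ⟨m, j⟩‖) := by
    intro p
    rw [← sum_single M m (fun q => 1 / ‖combR M Y l p - combR M Y l q‖), Finset.mul_sum]
    exact Finset.sum_congr rfl fun q _ => by ring
  rw [Finset.sum_congr rfl fun p _ => h1 p,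
    sum_single M m (fun p => ∑ j, (M m).z j * (1 / ‖combR M Y l p - combR M Y l ⟨m, j⟩‖))]
  refine Finset.sum_congr rfl fun i _ => ?_
  rw [Finset.mul_sum]
  refine Finset.sum_congr rfl fun j _ => ?_
  have : combR M Y l ⟨m, i⟩ - combR M Y l ⟨m, j⟩ = (M m).R i - (M m).R j := by
    unfold combR; simp
  rw [this]; ring

lemma exists_sep {Y : Fin n → R3} (hY : Function.Injective Y) (hn : 2 ≤ n) :
    ∃ d : ℝ, 0 < d ∧ ∀ a b, a ≠ b → d ≤ ‖Y a - Y b‖ := by
  classical
  set T : Finset (Fin n × Fin n) := Finset.univ.filter fun p => p.1 ≠ p.2 with hT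
  have hne : T.Nonempty := by
    refine ⟨(⟨0, by omega⟩, ⟨1, by omega⟩), ?_⟩
    rw [hT, Finset.mem_filter]
    refine ⟨Finset.mem_univ _, ?_⟩
    intro h
    simp at h
  obtain ⟨p, hp, hmin⟩ := Finset.exists_min_image T (fun p => ‖Y p.1 - Y p.2‖) hne
  rw [hT, Finset.mem_filter] at hp
  refine ⟨‖Y p.1 - Y p.2‖, norm_pos_iff.2 (sub_ne_zero.2 fun h => hp.2 (hY h)), fun a b hab => ?_⟩
  exact hmin (a, b) (by rw [hT, Finset.mem_filter]; exact ⟨Finset.mem_univ _, hab⟩)

/-- lower bounds on a far ball -/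
lemma far_ball {l r0 B cm c0 : ℝ} {q Ym X : R3} {ρ : R3 → ℝ} (hlp : 0 < l) (hl1 : 1 ≤ l)
    (hlr : r0 ≤ l) (_hB0 : 0 < B) (hX : ‖X‖ ≤ r0) (hc0 : 0 < c0) (hmin : c0 ≤ cm)
    (hq3 : 3 ≤ ‖q - Ym‖) (hqB : ‖q - Ym‖ + 2 ≤ B)
    (hL : ∀ᵐ x, 1 ≤ ‖x - X‖ → cm / ‖x - X‖ ^ 6 ≤ ρ x) :
    ∀ᵐ x, x ∈ ball (l • q) l → c0 / B ^ 6 / l ^ 6 ≤ ρ (x - l • Ym) := by
  have h2 := (measurePreserving_sub_right (volume : Measure R3)
    (l • Ym)).quasiMeasurePreserving.ae hL
  filter_upwards [h2] with x hx hxb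
  rw [mem_ball, dist_eq_norm] at hxb
  set u := x - l • Ym - X with hu
  have e2 : u = (x - l • q) + l • (q - Ym) - X := by
    rw [hu, smul_sub]; abel
  have n1 : ‖l • (q - Ym)‖ = l * ‖q - Ym‖ := by
    rw [norm_smul, Real.norm_of_nonneg hlp.le]
  have n3 : l * ‖q - Ym‖ ≤ ‖u‖ + ‖x - l • q‖ + ‖X‖ := by
    rw [← n1]
    have : l • (q - Ym) = u - (x - l • q) + X := by
      rw [e2]; abel
    rw [this]
    have := norm_sub_le u (x - l • q)
    have := norm_add_le (u - (x - l • q)) X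
    linarith
  have n4 : ‖u‖ ≤ ‖x - l • q‖ + l * ‖q - Ym‖ + ‖X‖ := by
    rw [e2, ← n1]
    have := norm_sub_le ((x - l • q) + l • (q - Ym)) X
    have := norm_add_le (x - l • q) (l • (q - Ym))
    linarith
  have n5 : l * 3 ≤ l * ‖q - Ym‖ := mul_le_mul_of_nonneg_left hq3 hlp.le
  have n5' : l * (‖q - Ym‖ + 2) ≤ l * B := mul_le_mul_of_nonneg_left hqB hlp.le
  have n6 : 1 ≤ ‖u‖ := by linarith
  have n7 : ‖u‖ ≤ B * l := by linarith
  have n8 : 0 < ‖u‖ := by linarith
  refine le_trans ?_ (hx n6)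
  have n9 : ‖u‖ ^ 6 ≤ (B * l) ^ 6 := pow_le_pow_left₀ n8.le n7 6
  rw [div_div, ← mul_pow]
  exact div_le_div₀ (hc0.le.trans hmin) hmin (by positivity) n9

/-- **The interaction energy of neutral Thomas-Fermi molecules of fixed shape is positive and
exactly of order `l⁻⁷`.**  For every `γ > 0`, all molecules `M_1, …, M_n` (`n ≥ 2`) and all different
vectors `Y_1, …, Y_n` there are constants `0 < c ≤ C` with
`c l⁻⁷ ≤ ΔE(l) ≤ C l⁻⁷` for all large `l`.  All the infima in the definition of `ΔE(l)` are attained. -/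
theorem result (γ : ℝ) (hγ : 0 < γ) (n : ℕ) (hn : 2 ≤ n) (M : Fin n → Molecule) (Y : Fin n → R3)
    (hY : Function.Injective Y) :
    (∀ m, IsLeast (energies γ (M m).z (M m).R) (E γ (M m).z (M m).R)) ∧
    (∀ l : ℝ, IsLeast (energies γ (combZ M) (combR M Y l)) (E γ (combZ M) (combR M Y l))) ∧
    ∃ c C l₀ : ℝ, 0 < c ∧ c ≤ C ∧ 0 < l₀ ∧
      ∀ l, l₀ ≤ l → c / l ^ 7 ≤ deltaE γ M Y l ∧ deltaE γ M Y l ≤ C / l ^ 7 := by
  classical
  have hz : ∀ p, 0 ≤ combZ M p := fun p => ((M p.1).z_pos p.2).le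
  have hz1 : ∀ p, 0 < combZ M p := fun p => (M p.1).z_pos p.2
  have hzm : ∀ m i, 0 ≤ (M m).z i := fun m i => ((M m).z_pos i).le
  refine ⟨fun m => ?_, fun l => ?_, ?_⟩
  · obtain ⟨ρ, hρ⟩ := tf_ex hγ (hzm m) (M m).R
    rw [E_eq hγ hρ]; exact least_FE hγ hρ
  · obtain ⟨ρ, hρ⟩ := tf_ex hγ hz (combR M Y l)
    rw [E_eq hγ hρ]; exact least_FE hγ hρ
  -- the molecules
  choose ρ0 T0 using fun m => tf_ex hγ (hzm m) (M m).R
  have Em : ∀ m, E γ (M m).z (M m).R = FE γ (M m).z (M m).R (ρ0 m) := fun m => E_eq hγ (T0 m)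
  -- geometry
  obtain ⟨d, hd, hsep⟩ := exists_sep hY hn
  obtain ⟨r0, hr0, hr⟩ : ∃ r0 : ℝ, 0 ≤ r0 ∧ ∀ m i, ‖(M m).R i‖ ≤ r0 := by
    refine ⟨∑ m, ∑ i, ‖(M m).R i‖, by positivity, fun m i => ?_⟩
    calc ‖(M m).R i‖ ≤ ∑ i, ‖(M m).R i‖ :=
          Finset.single_le_sum (f := fun i => ‖(M m).R i‖) (fun i _ => norm_nonneg _)
            (Finset.mem_univ i)
      _ ≤ _ := Finset.single_le_sum (f := fun m => ∑ i, ‖(M m).R i‖)
            (fun m _ => Finset.sum_nonneg fun i _ => norm_nonneg _) (Finset.mem_univ m)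
  -- the two molecules used for the lower bound
  set a : Fin n := ⟨0, by omega⟩ with ha
  set b : Fin n := ⟨1, by omega⟩ with hb
  have hab : b ≠ a := by
    intro h
    rw [ha, hb] at h
    simp at h
  set ia : Fin (M a).k := ⟨0, (M a).k_pos⟩
  set ib : Fin (M b).k := ⟨0, (M b).k_pos⟩
  obtain ⟨ca, hca, La⟩ := (T0 a).dens_ge hγ (hzm a) ((M a).z_pos ia)
  obtain ⟨cb, hcb, Lb⟩ := (T0 b).dens_ge hγ (hzm b) ((M b).z_pos ib)
  obtain ⟨q, hq⟩ : ∃ q : R3, ‖q‖ = 3 + ‖Y a‖ + ‖Y b‖ :=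
    exists_norm_eq R3 (by positivity)
  have hqa : 3 ≤ ‖q - Y a‖ := by
    have := norm_sub_norm_le q (Y a)
    have := norm_nonneg (Y b)
    linarith
  have hqb : 3 ≤ ‖q - Y b‖ := by
    have := norm_sub_norm_le q (Y b)
    have := norm_nonneg (Y a)
    linarith
  set B : ℝ := ‖q - Y a‖ + ‖q - Y b‖ + 2 with hB
  have hB0 : 0 < B := by positivity
  set K : ℝ := min ca cb / B ^ 6 with hK
  have hK0 : 0 < K := by positivity
  set N : ℝ := (Fintype.card (Σ m : Fin n, Fin (M m).k) : ℝ) with hN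
  set c : ℝ := 2/5 * γ * (4/3 * Real.pi * K ^ (5/3 : ℝ)) with hc
  set C : ℝ := n * (Cup γ N N * (10 / d) ^ 7) with hC
  set l0 : ℝ := 1 + r0 + 20 * r0 / d with hl0
  have hl0p : 0 < l0 := by positivity
  have hpi := Real.pi_pos
  have hc0 : 0 < c := by positivity
  have main : ∀ l, l0 ≤ l → c / l ^ 7 ≤ deltaE γ M Y l ∧ deltaE γ M Y l ≤ C / l ^ 7 := by
    intro l hl
    have hlp : 0 < l := hl0p.trans_le hl
    have hl1 : 1 ≤ l := by
      have : 0 ≤ r0 + 20 * r0 / d := by positivity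
      linarith
    have hlr : r0 ≤ l := by
      have : 0 ≤ 1 + 20 * r0 / d := by positivity
      linarith
    have hld : 20 * r0 ≤ l * d := by
      have h1 : 20 * r0 / d ≤ l := by linarith
      rwa [div_le_iff₀ hd] at h1
    set R := combR M Y l with hR
    -- the family of densities
    have hfam : ∀ S : Finset (Fin n), ∃ ρ : R3 → ℝ, TFs γ (zS Sigma.fst (combZ M) S) R ρ ∧
        ∀ m, S = {m} → ρ = fun x => ρ0 m (x - l • Y m) := by
      intro S
      by_cases hS : ∃ m, S = {m}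
      · obtain ⟨m, rfl⟩ := hS
        refine ⟨fun x => ρ0 m (x - l • Y m), ?_, fun m' hm' => ?_⟩
        · refine (T0 m).shift (Vn_single M Y l m) (mass_single M m) fun x hx j _ => ?_
          have h1 := hx ⟨m, j⟩ (by
            unfold zS; simp only [Finset.mem_singleton, if_true]; exact hz1 _)
          intro h2
          refine h1 ?_
          show x = (M m).R j + l • Y m
          rw [← h2]; abel
        · have : m = m' := Finset.singleton_injective hm'
          rw [this]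
      · obtain ⟨ρ, hρ⟩ := tf_ex hγ (zS_nonneg hz S) R
        exact ⟨ρ, hρ, fun m hm => absurd ⟨m, hm⟩ hS⟩
    choose ρ T hρ using hfam
    have hE : E γ (combZ M) R = FE γ (zS Sigma.fst (combZ M) Finset.univ) R (ρ Finset.univ) := by
      have e : zS (Sigma.fst : (Σ m : Fin n, Fin (M m).k) → Fin n) (combZ M) Finset.univ =
          combZ M := by
        funext p; unfold zS; simp
      have h1 := T Finset.univ
      rw [e] at h1 ⊢
      exact E_eq hγ h1
    have hEm : ∀ m, FE γ (zS Sigma.fst (combZ M) {m}) R (ρ {m}) = E γ (M m).z (M m).R := by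
      intro m
      rw [Em m, hρ {m} m rfl]
      unfold FE
      rw [hR, UU_single M Y l m, En_shift (T0 m).md (Vn_single M Y l m)]
    have hdel : deltaE γ M Y l = FE γ (zS Sigma.fst (combZ M) Finset.univ) R (ρ Finset.univ) -
        ∑ m, FE γ (zS Sigma.fst (combZ M) {m}) R (ρ {m}) := by
      unfold deltaE
      rw [← hR, hE, Finset.sum_congr rfl fun m _ => hEm m]
    have hRp : ∀ p : (Σ m : Fin n, Fin (M m).k), ∀ m, R p - l • Y m =
        (M p.1).R p.2 + l • (Y p.1 - Y m) := by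
      intro p m
      rw [hR]; unfold combR
      rw [smul_sub]; abel
    have g1 : ∀ (p : Σ m : Fin n, Fin (M m).k) m, p.1 ≠ m → l * d - r0 ≤ ‖R p - l • Y m‖ := by
      intro p m hpm
      rw [hRp]
      have h1 : ‖l • (Y p.1 - Y m)‖ = l * ‖Y p.1 - Y m‖ := by
        rw [norm_smul, Real.norm_of_nonneg hlp.le]
      have h2 : l * d ≤ l * ‖Y p.1 - Y m‖ := mul_le_mul_of_nonneg_left (hsep _ _ hpm) hlp.le
      have h3 := norm_sub_norm_le (l • (Y p.1 - Y m)) (-(M p.1).R p.2)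
      rw [sub_neg_eq_add, norm_neg, add_comm (l • (Y p.1 - Y m))] at h3
      have h4 := hr p.1 p.2
      linarith
    rw [hdel]
    constructor
    · -- lower bound
      have hRne : ∀ p q : (Σ m : Fin n, Fin (M m).k), 0 < combZ M p → 0 < combZ M q →
          Sigma.fst p ≠ Sigma.fst q → R p ≠ R q := by
        intro p q _ _ hpq he
        have h1 := g1 p q.1 hpq
        rw [he, hRp, sub_self, smul_zero, add_zero] at h1
        have h2 := hr q.1 q.2
        have h3 : 0 < l * d := by positivity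
        nlinarith
      have ha1 : a ∉ (Finset.univ \ {a, b} : Finset (Fin n)) := by simp
      have hb1 : b ∉ (Finset.univ \ {a, b} : Finset (Fin n)) := by simp
      have h1 := all_lo hγ hz hRne T hab (Finset.univ \ {a, b}) ha1 hb1
      have e1 : insert a (insert b (Finset.univ \ {a, b})) = (Finset.univ : Finset (Fin n)) := by
        ext x
        simp only [Finset.mem_insert, Finset.mem_sdiff, Finset.mem_univ, Finset.mem_singleton,
          true_and, iff_true]
        tauto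
      rw [e1] at h1
      have gen : ∀ (m : Fin n) (i : Fin (M m).k) (cm : ℝ), 0 < cm → min ca cb ≤ cm →
          3 ≤ ‖q - Y m‖ → ‖q - Y m‖ + 2 ≤ B →
          (∀ᵐ x, 1 ≤ ‖x - (M m).R i‖ → cm / ‖x - (M m).R i‖ ^ 6 ≤ ρ0 m x) →
          ∀ᵐ x, x ∈ ball (l • q) l → K / l ^ 6 ≤ ρ {m} x := by
        intro m i cm hcm hmin hq3 hqB hL
        rw [hρ {m} m rfl]
        exact far_ball hlp hl1 hlr hB0 (hr m i) (by positivity) hmin hq3 hqB hL
      have h3 := gen a ia ca hca (min_le_left _ _) hqa (by rw [hB]; linarith) La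
      have h4 := gen b ib cb hcb (min_le_right _ _) hqb (by rw [hB]; linarith) Lb
      have h5 := gain_lo (T {a}).md (T {b}).md hlp hK0 (l • q) h3 h4
      have h6 : c / l ^ 7 ≤ 2/5 * γ * (∫ x, (min (ρ {a} x) (ρ {b} x)) ^ (5/3 : ℝ)) := by
        refine le_trans (le_of_eq ?_) (mul_le_mul_of_nonneg_left h5 (by positivity))
        rw [hc]; ring
      linarith
    · -- upper bound
      have hs : 0 < d * l / 10 := by positivity
      have h1 := all_up hγ hz T (Y := fun m => l • Y m) hs (fun p m _ hpm => by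
          have := g1 p m hpm
          linarith) (fun p _ => by
          have e2 : R p - l • Y p.1 = (M p.1).R p.2 := by rw [hRp]; simp
          show ‖R p - l • Y p.1‖ ≤ _
          rw [e2]
          have := hr p.1 p.2
          linarith) Finset.univ
      rw [Finset.card_univ, Fintype.card_fin] at h1
      have e3 : (n : ℝ) * (Cup γ N N / (d * l / 10) ^ 7) = C / l ^ 7 := by
        rw [hC]; field_simp
      rw [← hN, e3] at h1
      linarith
  refine ⟨c, C, l0, hc0, ?_, hl0p, main⟩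
  obtain ⟨h1, h2⟩ := main l0 le_rfl
  have h3 := h1.trans h2
  rwa [div_le_div_iff_of_pos_right (by positivity)] at h3

end Pool.Agent.Results.MP_88afc7_mp.SeventhPower
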